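import Pool.Agent.Helper5.LCU.Stmts

/-!
Row UFC of project LCU: the coefficients of `F' F ^ j`.
-/

set_option autoImplicit false

open Finset Pool.Agent.Helper89.UB Pool.Agent.Helper5.LCU

namespace Pool.Agent.Helper91.LCU

/-- the cut off sequence `1 / i!` -/
theorem slc_fact (lo hi : ℕ) :
    SLC (fun i => if lo ≤ i ∧ i < hi then 1 / (i.factorial : ℝ) else 0) := by
  have hnn : ∀ i : ℕ, (0 : ℝ) ≤ if lo ≤ i ∧ i < hi then 1 / (i.factorial : ℝ) else 0 := by
    intro i
    split_ifs
    · positivity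
    · exact le_rfl
  refine ⟨hnn, fun i j hij => ?_⟩
  by_cases h : lo ≤ i ∧ j + 2 < hi
  · have h1 : lo ≤ i ∧ i < hi := by omega
    have h2 : lo ≤ j + 2 ∧ j + 2 < hi := by omega
    have h3 : lo ≤ i + 1 ∧ i + 1 < hi := by omega
    have h4 : lo ≤ j + 1 ∧ j + 1 < hi := by omega
    simp only [h1, h2, h3, h4, and_self, if_true]
    rw [one_div_mul_one_div, one_div_mul_one_div]
    have hi0 : (0 : ℝ) < (i.factorial : ℝ) := by exact_mod_cast i.factorial_pos
    have hj0 : (0 : ℝ) < ((j + 1).factorial : ℝ) := by exact_mod_cast (j + 1).factorial_pos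
    refine one_div_le_one_div_of_le (by positivity) ?_
    have e1 : ((i + 1).factorial : ℝ) = ((i : ℝ) + 1) * (i.factorial : ℝ) := by
      rw [Nat.factorial_succ]; push_cast; ring
    have e2 : ((j + 2).factorial : ℝ) = ((j : ℝ) + 2) * ((j + 1).factorial : ℝ) := by
      rw [Nat.factorial_succ]; push_cast; ring
    have hij' : (i : ℝ) ≤ (j : ℝ) := by exact_mod_cast hij
    rw [e1, e2]
    have h5 : 0 ≤ (i.factorial : ℝ) * ((j + 1).factorial : ℝ) := by positivity
    nlinarith
  · have h0 : (if lo ≤ i ∧ i < hi then 1 / (i.factorial : ℝ) else 0) *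
        (if lo ≤ j + 2 ∧ j + 2 < hi then 1 / ((j + 2).factorial : ℝ) else 0) = 0 := by
      rcases not_and_or.1 h with h1 | h1
      · rw [if_neg (fun h2 => h1 h2.1), zero_mul]
      · rw [if_neg (c := lo ≤ j + 2 ∧ j + 2 < hi) (fun h2 => h1 h2.2), mul_zero]
    change (if lo ≤ i ∧ i < hi then 1 / (i.factorial : ℝ) else 0) *
        (if lo ≤ j + 2 ∧ j + 2 < hi then 1 / ((j + 2).factorial : ℝ) else 0) ≤ _
    rw [h0]
    exact mul_nonneg (hnn _) (hnn _)

theorem coeff_FR (r x : ℕ) :
    (FR r).coeff x = if 1 ≤ x ∧ x < r then 1 / (x.factorial : ℝ) else 0 := by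
  unfold FR
  rw [Polynomial.finset_sum_coeff]
  simp only [Polynomial.coeff_monomial]
  rw [Finset.sum_ite_eq' (Ico 1 r) x (fun i => 1 / (i.factorial : ℝ))]
  simp only [mem_Ico]

theorem coeff_dFR (r x : ℕ) :
    (Polynomial.derivative (FR r)).coeff x =
      if 0 ≤ x ∧ x < r - 1 then 1 / (x.factorial : ℝ) else 0 := by
  rw [Polynomial.coeff_derivative, coeff_FR]
  by_cases h : x < r - 1
  · rw [if_pos ⟨by omega, by omega⟩, if_pos ⟨Nat.zero_le _, h⟩, Nat.factorial_succ]
    have h1 : (0 : ℝ) < (x.factorial : ℝ) := by exact_mod_cast x.factorial_pos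
    push_cast
    field_simp
  · rw [if_neg (by omega), if_neg (by omega), zero_mul]

/-- row UFC -/
theorem st_UFC (hCNV : ST_CNV) : ST_UFC := by
  intro r j _
  have hF : SLC (fun x => (FR r).coeff x) := by
    have := slc_fact 1 r
    have e : (fun x => (FR r).coeff x) =
        fun x => if 1 ≤ x ∧ x < r then 1 / (x.factorial : ℝ) else 0 := funext (coeff_FR r)
    rw [e]
    exact this
  have hD : SLC (fun x => (Polynomial.derivative (FR r)).coeff x) := by
    have := slc_fact 0 (r - 1)
    have e : (fun x => (Polynomial.derivative (FR r)).coeff x) =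
        fun x => if 0 ≤ x ∧ x < r - 1 then 1 / (x.factorial : ℝ) else 0 := funext (coeff_dFR r)
    rw [e]
    exact this
  induction j with
  | zero =>
    simp only [pow_zero, mul_one]
    exact hD
  | succ j ih =>
    have h := hCNV _ _ ih hF
    have e : (fun x => (Polynomial.derivative (FR r) * (FR r) ^ (j + 1)).coeff x) =
        fun m => ∑ i ∈ range (m + 1), (Polynomial.derivative (FR r) * (FR r) ^ j).coeff i *
          (FR r).coeff (m - i) := by
      funext m
      rw [pow_succ, ← mul_assoc, Polynomial.coeff_mul,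
        Finset.Nat.sum_antidiagonal_eq_sum_range_succ
          (fun a b => (Polynomial.derivative (FR r) * (FR r) ^ j).coeff a * (FR r).coeff b) m]
    rw [e]
    exact h

end Pool.Agent.Helper91.LCU
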